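import Pool.Agent.Lib.MP_75b31c_lc.N40.Iface

set_option autoImplicit false

/-! GUESS: the error of the guess. -/

namespace Pool.Agent.Lib.MP_75b31c_lc.N40.H25

open MeasureTheory Filter
open Pool.Agent.Lib.MP_75b31c_lc.H40 (chi coin coinPi shift pre pre_take pre_length)

theorem gd_guess {k : ℕ} {U : List Bool → Bool} {H : ℕ → List Bool → List Bool} {n : ℕ}
    (hH : IsFn (H n)) {z y : ℕ → Bool} (hC : Cmp (H n) z y) :
    Gd (fun ρ => guess k U H ρ n) z (xor (U (pre z k)) (U (pre y k))) := by
  obtain ⟨h1, h2⟩ := hC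
  have hval : ∀ t, k ≤ t → k ≤ (H n (pre z t)).length →
      guess k U H (pre z t) n = some (xor (U (pre z k)) (U (pre y k))) := by
    intro t ht hl
    unfold guess
    rw [if_pos ⟨by rw [pre_length]; exact ht, hl⟩, pre_take z ht]
    have h3 : (H n (pre z t)).take k = pre y k := by
      rw [h1 t, pre_take y hl]
    rw [h3]
  refine ⟨fun t c hc => ?_, ?_⟩
  · dsimp only at hc
    by_cases hcond : k ≤ (pre z t).length ∧ k ≤ (H n (pre z t)).length
    · have h4 := hval t (by rw [← pre_length z t]; exact hcond.1) hcond.2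
      rw [h4] at hc
      exact (Option.some.inj hc).symm
    · unfold guess at hc
      rw [if_neg hcond] at hc
      exact absurd hc (by simp)
  · obtain ⟨T, hT⟩ := h2 k
    filter_upwards [eventually_ge_atTop (max k T)] with t ht
    have hkt : k ≤ t := le_trans (le_max_left _ _) ht
    have hTt : T ≤ t := le_trans (le_max_right _ _) ht
    refine hval t hkt (hT.trans ?_)
    have hp : pre z T <+: pre z t := by
      rw [← pre_take z hTt]
      exact List.take_prefix _ _
    exact (hH.mono _ _ hp).length_le

theorem guess : GUESS_S := by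
  intro hM _ X _ μ _ D h hh bit hbit p hp H hH hHe k U hU n
  set A : Set X := {x | ¬ Cmp (H n) (h x) (h (D.w n x))} with hA
  set B : Set X := {x | U (pre (h x) k) ≠ bit x} with hB
  have hBm : MeasurableSet B := by
    have h1 : Measurable fun x => U (pre (h x) k) := (hM.2.2.1 U k).comp hh
    exact (measurableSet_eq_fun h1 hbit).compl
  have hsub : {x | ¬ Gd (fun ρ => N40.guess k U H ρ n) (h x) (p n)} ⊆ A ∪ (B ∪ D.w n ⁻¹' B) := by
    intro x hx
    by_contra hcon
    simp only [Set.mem_union, not_or] at hcon
    obtain ⟨h1, h2, h3⟩ := hcon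
    apply hx
    have hC : Cmp (H n) (h x) (h (D.w n x)) := by
      by_contra h4
      exact h1 h4
    have e1 : U (pre (h x) k) = bit x := by
      by_contra h4
      exact h2 h4
    have e2 : U (pre (h (D.w n x)) k) = bit (D.w n x) := by
      by_contra h4
      exact h3 h4
    have h5 := gd_guess (k := k) (U := U) (hH n) hC
    rw [e1, e2, hp n x] at h5
    have e3 : (xor (bit x) (xor (bit x) (p n))) = p n := by
      cases bit x <;> cases p n <;> rfl
    rw [e3] at h5
    exact h5
  have hw : μ.real (D.w n ⁻¹' B) = μ.real B := by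
    unfold Measure.real
    rw [(D.mw n).measure_preimage hBm.nullMeasurableSet]
  calc μ.real {x | ¬ Gd (fun ρ => N40.guess k U H ρ n) (h x) (p n)} ≤
      μ.real (A ∪ (B ∪ D.w n ⁻¹' B)) := measureReal_mono hsub
    _ ≤ μ.real A + μ.real (B ∪ D.w n ⁻¹' B) := measureReal_union_le _ _
    _ ≤ μ.real A + (μ.real B + μ.real (D.w n ⁻¹' B)) := by
        gcongr
        exact measureReal_union_le _ _
    _ ≤ 52 * qq := by
        rw [hw]
        have := hHe n
        linarith

end Pool.Agent.Lib.MP_75b31c_lc.N40.H25
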