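import Pool.Agent.Lib.MP_75b31c_lc.N40.Iface

set_option autoImplicit false

/-! MEAS: measurability. -/

namespace Pool.Agent.Lib.MP_75b31c_lc.N40.H25

open MeasureTheory Filter
open Pool.Agent.Lib.MP_75b31c_lc.H40 (chi coin coinPi shift pre)

theorem measurableSet_pre (t : ℕ) (S : Set (List Bool)) :
    MeasurableSet {z : ℕ → Bool | pre z t ∈ S} := by
  have h1 : Measurable (fun (z : ℕ → Bool) (i : Fin t) => z i) :=
    measurable_pi_lambda _ fun i => measurable_pi_apply _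
  have h2 : {z : ℕ → Bool | pre z t ∈ S} =
      (fun (z : ℕ → Bool) (i : Fin t) => z i) ⁻¹' {f : Fin t → Bool | List.ofFn f ∈ S} := by
    ext z
    have h3 : pre z t = List.ofFn (fun i : Fin t => z i) := by
      apply List.ext_getElem
      · simp [pre]
      · intro i h1 h2
        simp [pre]
    simp only [Set.mem_ofPred_eq, Set.mem_preimage, h3]
  rw [h2]
  exact h1 (Set.toFinite _).measurableSet

theorem measurable_pre_fun {β : Type} [MeasurableSpace β] (U : List Bool → β) (k : ℕ) :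
    Measurable fun z : ℕ → Bool => U (pre z k) := by
  intro s _
  exact measurableSet_pre k (U ⁻¹' s)

theorem meas_cmp (φ : List Bool → List Bool) :
    MeasurableSet {p : (ℕ → Bool) × (ℕ → Bool) | Cmp φ p.1 p.2} := by
  have e : {p : (ℕ → Bool) × (ℕ → Bool) | Cmp φ p.1 p.2} =
      (⋂ t : ℕ, ⋃ ρ : List Bool, ({p : (ℕ → Bool) × (ℕ → Bool) | pre p.1 t ∈ ({ρ} : Set (List Bool))} ∩
        {p : (ℕ → Bool) × (ℕ → Bool) | pre p.2 (φ ρ).length ∈ ({φ ρ} : Set (List Bool))})) ∩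
      ⋂ n : ℕ, ⋃ t : ℕ, {p : (ℕ → Bool) × (ℕ → Bool) |
        pre p.1 t ∈ {ρ : List Bool | n ≤ (φ ρ).length}} := by
    ext p
    simp only [Cmp, Set.mem_ofPred_eq, Set.mem_inter_iff, Set.mem_iInter, Set.mem_iUnion,
      Set.mem_singleton_iff]
    refine and_congr (forall_congr' fun t => ?_) Iff.rfl
    constructor
    · intro h
      exact ⟨_, rfl, h.symm⟩
    · rintro ⟨ρ, h1, h2⟩
      rw [h1, h2]
  rw [e]
  refine MeasurableSet.inter (MeasurableSet.iInter fun t => MeasurableSet.iUnion fun ρ =>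
    MeasurableSet.inter ?_ ?_) (MeasurableSet.iInter fun n => MeasurableSet.iUnion fun t => ?_)
  · exact measurable_fst (measurableSet_pre t {ρ})
  · exact measurable_snd (measurableSet_pre _ {φ ρ})
  · exact measurable_fst (measurableSet_pre t {ρ : List Bool | n ≤ (φ ρ).length})

theorem meas_gd (G : List Bool → Option Bool) (b : Bool) :
    MeasurableSet {z : ℕ → Bool | Gd G z b} := by
  have e : {z : ℕ → Bool | Gd G z b} =
      (⋂ t : ℕ, {z : ℕ → Bool | pre z t ∈ {ρ : List Bool | ∀ c, G ρ = some c → c = b}}) ∩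
      ⋃ T : ℕ, ⋂ t : ℕ, ⋂ _ : T ≤ t, {z : ℕ → Bool | pre z t ∈ {ρ : List Bool | G ρ = some b}} := by
    ext z
    simp only [Gd, eventually_atTop, Set.mem_ofPred_eq, Set.mem_inter_iff, Set.mem_iInter,
      Set.mem_iUnion]
  rw [e]
  exact MeasurableSet.inter (MeasurableSet.iInter fun t => measurableSet_pre t _)
    (MeasurableSet.iUnion fun T => MeasurableSet.iInter fun t => MeasurableSet.iInter fun _ =>
      measurableSet_pre t _)

theorem meas (h1 : ENU_S) (h2 : CMPC_S) : MEAS_S := by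
  refine ⟨meas_cmp, meas_gd, fun U k => measurable_pre_fun U k, fun E k => measurable_pre_fun E k,
    ?_⟩
  obtain ⟨ψ, _, hψ1, hψ2⟩ := h1
  obtain ⟨_, _, _, hT⟩ := h2
  have e : {p : (ℕ → Bool) × (ℕ → Bool) | TLe p.1 p.2} =
      ⋃ c : ℕ, Prod.swap ⁻¹' {p : (ℕ → Bool) × (ℕ → Bool) | Cmp (ψ c) p.1 p.2} := by
    ext p
    simp only [Set.mem_ofPred_eq, Set.mem_iUnion, Set.mem_preimage, Prod.fst_swap, Prod.snd_swap]
    exact ⟨fun h => hψ2 _ _ h, fun ⟨c, hc⟩ => hT _ _ _ (hψ1 c) hc⟩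
  rw [e]
  exact MeasurableSet.iUnion fun c => measurable_swap (meas_cmp (ψ c))

end Pool.Agent.Lib.MP_75b31c_lc.N40.H25
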