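import Pool.Agent.Lib.MP_75b31c_lc.N40.Iface

set_option autoImplicit false

/-! SEP: separation of the two analytic sets. -/

namespace Pool.Agent.Lib.MP_75b31c_lc.N40.H25

open MeasureTheory Filter
open Pool.Agent.Lib.MP_75b31c_lc.H40 (chi coin coinPi shift pre)

theorem TEq.symm' {y z : ℕ → Bool} (h : TEq y z) : TEq z y := ⟨h.2, h.1⟩

theorem TEq.trans' {x y z : ℕ → Bool} (h : TEq x y) (h' : TEq y z) : TEq x z :=
  ⟨TuringReducible.trans h.1 h'.1, TuringReducible.trans h'.2 h.2⟩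

theorem analytic_sat (hM : MEAS_S) (f : YY → ℕ → Bool) (hf : Measurable f) (i : Bool) :
    AnalyticSet {z : ℕ → Bool | ∃ (p : ℕ → Bool) (x : XX), TEq z (f (p, x, i))} := by
  have h1 : Measurable fun w : (ℕ → Bool) × (ℕ → Bool) × XX => (w.1, f (w.2.1, w.2.2, i)) := by
    refine measurable_fst.prodMk (hf.comp ?_)
    exact (measurable_fst.comp measurable_snd).prodMk
      ((measurable_snd.comp measurable_snd).prodMk measurable_const)
  have h2 : MeasurableSet {w : (ℕ → Bool) × (ℕ → Bool) × XX | TEq w.1 (f (w.2.1, w.2.2, i))} := by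
    have h3 := hM.2.2.2.2
    exact MeasurableSet.inter (h1 h3) ((measurable_swap.comp h1) h3)
  have h4 : {z : ℕ → Bool | ∃ (p : ℕ → Bool) (x : XX), TEq z (f (p, x, i))} =
      Prod.fst '' {w : (ℕ → Bool) × (ℕ → Bool) × XX | TEq w.1 (f (w.2.1, w.2.2, i))} := by
    ext z
    constructor
    · rintro ⟨p, x, h⟩
      exact ⟨(z, p, x), h, rfl⟩
    · rintro ⟨⟨z', p, x⟩, h, rfl⟩
      exact ⟨p, x, h⟩
  rw [h4]
  exact h2.analyticSet_image measurable_fst

theorem sep : SEP_S := by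
  intro hM f hf hfe
  have hd : Disjoint {z : ℕ → Bool | ∃ (p : ℕ → Bool) (x : XX), TEq z (f (p, x, false))}
      {z : ℕ → Bool | ∃ (p : ℕ → Bool) (x : XX), TEq z (f (p, x, true))} := by
    rw [Set.disjoint_left]
    rintro z ⟨p, x, h⟩ ⟨p', x', h'⟩
    have h3 := (hfe (p, x, false) (p', x', true)).2 (TEq.trans' (TEq.symm' h) h')
    exact absurd h3.2.1 (by simp)
  obtain ⟨C, h0, h1, hC⟩ := (analytic_sat hM f hf false).measurablySeparable
    (analytic_sat hM f hf true) hd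
  refine ⟨C, hC, fun p x z h => h0 ⟨p, x, h⟩, fun p x z h hz => ?_⟩
  exact Set.disjoint_left.1 h1 ⟨p, x, h⟩ hz

end Pool.Agent.Lib.MP_75b31c_lc.N40.H25
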